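import Pool.Agent.Y234.FP.Stm

set_option autoImplicit false

/-!
Project FP, part HV: values of the Hilbert function (author helper410).
-/

namespace Pool.Agent.Y410.FP

open MvPolynomial Pool.Agent.Y234.FP

theorem ax_toE {r m : ℕ} (u : Ix1 r m) : ax (toE u) = (u.1 0 : ℕ) + (u.1 1 : ℕ) := rfl

theorem bx_toE {r m : ℕ} (u : Ix1 r m) :
    bx (toE u) = (u.1 1 : ℕ) + ∑ i : Fin r, (u.1 i.succ.succ : ℕ) := rfl

theorem dg_inl {r m : ℕ} (u : Ix1 r m) :
    dg (Sum.inl u : Ix r m) = ((ax (toE u) : ℤ), (bx (toE u) : ℤ)) := rfl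

theorem dg_inr {r m : ℕ} (p : Fin m × Fin (m + 1)) :
    dg (Sum.inr p : Ix r m) = (((m + (p.1 : ℕ) : ℕ) : ℤ), ((p.2 : ℕ) : ℤ)) := rfl

theorem t_HV : St_HV := by
  classical
  intro r m hm
  refine ⟨?_, ?_, ?_⟩
  · intro u hu
    unfold hf
    rw [Finset.card_eq_zero, Finset.filter_eq_empty_iff]
    rintro (v | p) - h
    · rw [dg_inl, Prod.mk.injEq, Nat.cast_inj, Nat.cast_inj] at h
      have h1 := ax_toE v
      have h2 := bx_toE v
      have h3 := v.2.1
      have h4 := v.2.2.1
      omega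
    · rw [dg_inr, Prod.mk.injEq, Nat.cast_inj, Nat.cast_inj] at h
      have h1 := p.1.2
      have h2 := p.2.2
      omega
  · intro b hb
    unfold hf
    rw [Finset.card_eq_zero, Finset.filter_eq_empty_iff]
    rintro (v | p) - h
    · rw [dg_inl, Prod.mk.injEq, Nat.cast_inj, Nat.cast_eq_zero] at h
      have h1 := ax_toE v
      have h2 := bx_toE v
      have h3 := v.2.2.2
      omega
    · rw [dg_inr, Prod.mk.injEq, Nat.cast_inj, Nat.cast_eq_zero] at h
      omega
  · intro a b ha ha' hb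
    unfold hf
    rw [Finset.card_eq_one]
    refine ⟨Sum.inr (⟨a - m, by omega⟩, ⟨b, by omega⟩), ?_⟩
    ext i
    rw [Finset.mem_filter, Finset.mem_singleton]
    constructor
    · rintro ⟨-, h⟩
      rcases i with v | p
      · exfalso
        rw [dg_inl, Prod.mk.injEq, Nat.cast_inj, Nat.cast_inj] at h
        have h1 := ax_toE v
        have h3 := v.2.1
        omega
      · rw [dg_inr, Prod.mk.injEq, Nat.cast_inj, Nat.cast_inj] at h
        congr 1
        refine Prod.ext (Fin.ext ?_) (Fin.ext ?_)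
        · show (p.1 : ℕ) = a - m
          omega
        · exact h.2
    · rintro rfl
      refine ⟨Finset.mem_univ _, ?_⟩
      rw [dg_inr, Prod.mk.injEq, Nat.cast_inj, Nat.cast_inj]
      refine ⟨?_, rfl⟩
      show m + (a - m) = a
      omega

end Pool.Agent.Y410.FP
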